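import Pool.Agent.W169.HF.Defs

/-!
HF-HS: the heat series.
-/

set_option autoImplicit false

open Complex MeasureTheory Filter Topology Set

namespace Pool.Agent.W762.HF

open Pool.Agent.W169.HF

/-- locally uniformly summable sequences of entire functions -/
def LS (F : ℕ → ℂ → ℂ) : Prop := (∀ k, Differentiable ℂ (F k)) ∧
  ∀ R : ℝ, ∃ u : ℕ → ℝ, Summable u ∧ ∀ k w, ‖w‖ < R → ‖F k w‖ ≤ u k

theorem LS.deriv {F : ℕ → ℂ → ℂ} (h : LS F) : LS (fun k => _root_.deriv (F k)) := by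
  refine ⟨fun k => ?_, fun R => ?_⟩
  · have h1 : ContDiff ℂ 2 (F k) := (h.1 k).contDiff
    have h2 : ContDiff ℂ 1 (_root_.deriv (F k)) := by
      have := h1
      rw [show (2 : WithTop ℕ∞) = 1 + 1 by norm_num, contDiff_succ_iff_deriv] at this
      exact this.2.2
    exact h2.differentiable (by norm_num)
  · obtain ⟨u, hu, hF⟩ := h.2 (R + 2)
    refine ⟨u, hu, fun k w hw => ?_⟩
    have := Complex.norm_deriv_le_of_forall_mem_sphere_norm_le (c := w) (R := 1) (C := u k)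
      (f := F k) one_pos (h.1 k).diffContOnCl (fun z hz => by
        apply hF
        rw [mem_sphere_iff_norm] at hz
        calc ‖z‖ = ‖(z - w) + w‖ := by rw [sub_add_cancel]
          _ ≤ ‖z - w‖ + ‖w‖ := norm_add_le _ _
          _ < R + 2 := by rw [hz]; linarith)
    rwa [div_one] at this

theorem LS.diff {F : ℕ → ℂ → ℂ} (h : LS F) : Differentiable ℂ (fun w => ∑' k, F k w) := by
  intro z
  obtain ⟨u, hu, hF⟩ := h.2 (‖z‖ + 1)
  have h1 := differentiableOn_tsum_of_summable_norm (U := Metric.ball (0 : ℂ) (‖z‖ + 1)) hu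
    (fun k => (h.1 k).differentiableOn) Metric.isOpen_ball
    (fun k w hw => hF k w (by rwa [mem_ball_zero_iff] at hw))
  exact h1.differentiableAt (Metric.isOpen_ball.mem_nhds (by
    rw [mem_ball_zero_iff]; linarith))

theorem LS.deriv_tsum {F : ℕ → ℂ → ℂ} (h : LS F) :
    _root_.deriv (fun w => ∑' k, F k w) = fun w => ∑' k, _root_.deriv (F k) w := by
  funext z
  obtain ⟨u, hu, hF⟩ := h.2 (‖z‖ + 1)
  have h1 := hasSum_deriv_of_summable_norm (U := Metric.ball (0 : ℂ) (‖z‖ + 1)) hu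
    (fun k => (h.1 k).differentiableOn) Metric.isOpen_ball
    (fun k w hw => hF k w (by rwa [mem_ball_zero_iff] at hw)) (z := z)
    (by rw [mem_ball_zero_iff]; linarith)
  exact h1.tsum_eq.symm

theorem iter_tsum (m : ℕ) : ∀ {F : ℕ → ℂ → ℂ}, LS F →
    iteratedDeriv m (fun w => ∑' k, F k w) = fun w => ∑' k, iteratedDeriv m (F k) w := by
  induction m with
  | zero =>
    intro F _
    simp only [iteratedDeriv_zero]
  | succ m ih =>
    intro F h
    rw [iteratedDeriv_succ', h.deriv_tsum, ih h.deriv]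
    funext w
    simp only [iteratedDeriv_succ']

theorem hs_of (h : S_DER) : S_HS := by
  intro f hf t
  set F : ℕ → ℂ → ℂ := fun k z =>
    ((t ^ k / (k.factorial : ℝ) : ℝ) : ℂ) * iteratedDeriv (2 * k) f z with hF
  -- the main bound
  have hb : ∀ δ : ℝ, 0 < δ → 30 * δ * |t| ≤ 1 / 2 → ∃ K : ℝ, 0 < K ∧ ∀ (k : ℕ) (z : ℂ),
      ‖F k z‖ ≤ (K * Real.exp (2 * δ * ‖z‖ ^ 2)) * (1 / 2) ^ k := by
    intro δ hδ hδt
    obtain ⟨K, hK, hd⟩ := h f hf δ hδ
    refine ⟨K, hK, fun k z => ?_⟩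
    have hk : (0 : ℝ) < (k.factorial : ℝ) := by positivity
    simp only [hF]
    rw [norm_mul, Complex.norm_real, Real.norm_eq_abs, abs_div, abs_pow, abs_of_pos hk]
    have h1 : (30 * δ * |t|) ^ k ≤ (1 / 2) ^ k := pow_le_pow_left₀ (by positivity) hδt k
    calc |t| ^ k / (k.factorial : ℝ) * ‖iteratedDeriv (2 * k) f z‖
        ≤ |t| ^ k / (k.factorial : ℝ) *
          (K * (k.factorial : ℝ) * (30 * δ) ^ k * Real.exp (2 * δ * ‖z‖ ^ 2)) :=
          mul_le_mul_of_nonneg_left (hd k z) (by positivity)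
      _ = (K * Real.exp (2 * δ * ‖z‖ ^ 2)) * (30 * δ * |t|) ^ k := by
          rw [mul_pow (30 * δ)]
          field_simp
      _ ≤ _ := mul_le_mul_of_nonneg_left h1 (by positivity)
  set δ₀ : ℝ := 1 / (60 * (|t| + 1)) with hδ₀
  have ht0 : 0 ≤ |t| := abs_nonneg t
  have hδ0 : 0 < δ₀ := by positivity
  have hδ1 : ∀ δ : ℝ, 0 < δ → δ ≤ δ₀ → 30 * δ * |t| ≤ 1 / 2 := by
    intro δ hδ hle
    have h1 : δ₀ * (60 * (|t| + 1)) = 1 := by rw [hδ₀]; field_simp
    have h2 : δ * (60 * (|t| + 1)) ≤ 1 := by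
      have h3 : δ * (60 * (|t| + 1)) ≤ δ₀ * (60 * (|t| + 1)) :=
        mul_le_mul_of_nonneg_right hle (by positivity)
      linarith
    nlinarith
  have hgeo : Summable fun k : ℕ => (1 / 2 : ℝ) ^ k :=
    summable_geometric_of_lt_one (by norm_num) (by norm_num)
  have hsum : ∀ z : ℂ, Summable fun k : ℕ => ‖F k z‖ := by
    intro z
    obtain ⟨K, hK, hd⟩ := hb δ₀ hδ0 (hδ1 δ₀ hδ0 le_rfl)
    exact Summable.of_nonneg_of_le (fun k => norm_nonneg _) (fun k => hd k z) (hgeo.mul_left _)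
  have hcd : ∀ m : ℕ, Differentiable ℂ (iteratedDeriv m f) := by
    intro m
    have h1 : ContDiff ℂ (m + 1 : ℕ) f := hf.1.contDiff
    exact h1.differentiable_iteratedDeriv m (by exact_mod_cast Nat.lt_succ_self m)
  have hLS : LS F := by
    refine ⟨fun k => (hcd (2 * k)).const_mul _, fun R => ?_⟩
    obtain ⟨K, hK, hd⟩ := hb δ₀ hδ0 (hδ1 δ₀ hδ0 le_rfl)
    refine ⟨fun k => (K * Real.exp (2 * δ₀ * R ^ 2)) * (1 / 2) ^ k, hgeo.mul_left _, ?_⟩
    intro k w hw
    refine (hd k w).trans ?_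
    have h1 : ‖w‖ ^ 2 ≤ R ^ 2 := pow_le_pow_left₀ (norm_nonneg _) hw.le 2
    have h2 : Real.exp (2 * δ₀ * ‖w‖ ^ 2) ≤ Real.exp (2 * δ₀ * R ^ 2) :=
      Real.exp_le_exp.2 (mul_le_mul_of_nonneg_left h1 (by positivity))
    exact mul_le_mul_of_nonneg_right (mul_le_mul_of_nonneg_left h2 hK.le) (by positivity)
  have hhs : hs t f = fun w => ∑' k, F k w := rfl
  refine ⟨hsum, ⟨?_, ?_⟩, ?_⟩
  · rw [hhs]
    exact hLS.diff
  · intro δ hδ
    set δ' : ℝ := min (δ / 2) δ₀ with hδ'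
    have hp : 0 < δ' := lt_min (by linarith) hδ0
    obtain ⟨K, hK, hd⟩ := hb δ' hp (hδ1 δ' hp (min_le_right _ _))
    refine ⟨2 * K, by linarith, fun z => ?_⟩
    rw [hhs]
    have h1 : ‖∑' k, F k z‖ ≤ ∑' k : ℕ, (K * Real.exp (2 * δ' * ‖z‖ ^ 2)) * (1 / 2) ^ k :=
      tsum_of_norm_bounded (hgeo.mul_left _).hasSum (fun k => hd k z)
    rw [tsum_mul_left, tsum_geometric_two] at h1
    refine h1.trans ?_
    have h2 : 2 * δ' ≤ δ := by
      have := min_le_left (δ / 2) δ₀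
      linarith
    have h3 : Real.exp (2 * δ' * ‖z‖ ^ 2) ≤ Real.exp (δ * ‖z‖ ^ 2) := by
      apply Real.exp_le_exp.2
      exact mul_le_mul_of_nonneg_right h2 (by positivity)
    calc K * Real.exp (2 * δ' * ‖z‖ ^ 2) * 2 = 2 * K * Real.exp (2 * δ' * ‖z‖ ^ 2) := by ring
      _ ≤ _ := mul_le_mul_of_nonneg_left h3 (by linarith)
  · intro j z
    rw [hhs, iter_tsum (2 * j) hLS]
    apply tsum_congr
    intro k
    simp only [hF]
    rw [iteratedDeriv_const_mul_field]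
    congr 1
    rw [iteratedDeriv_eq_iterate, iteratedDeriv_eq_iterate, iteratedDeriv_eq_iterate,
      ← Function.iterate_add_apply]

end Pool.Agent.W762.HF
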